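import Pool.Agent.U705.RC.Final
import Pool.Agent.U705.RC.Beta
import Pool.Agent.U692.RC.ALPHA
import Pool.Agent.U875.RC.GLUE
import Pool.Agent.U682.RC.GEN
import Pool.Agent.U682.RC.TRI
import Pool.Agent.U94.RC.ESL
import Pool.Agent.U94.RC.MERGE
import Pool.Agent.U103.RC.ADATA
import Pool.Agent.U394.RC.BDATA
import Pool.Agent.U875.RC.BAD

/-!
# Reconstructibility of functions determined by content and singletons
-/

open Function Pool.Agent.R795.Min Pool.Agent.U705.RC

namespace Pool.Agent.Results.MP_75c0e8_co.Reconstruction

theorem infinite_case (A B : Type) [DecidableEq A] [Infinite A] [Nontrivial B] (n : ℕ) :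
    ∃ f : (Fin (n + 1) → A) → B, DetCS f ∧ ¬ Reconstructible f := by
  classical
  obtain ⟨b0, b1, hb⟩ := exists_pair_ne B
  refine ⟨fun _ => b0, fun _ _ _ _ => rfl, fun hrec => ?_⟩
  have hdeck : deck (fun a : Fin (n + 1) → A => if Injective a then b1 else b0) =
      deck (fun _ : Fin (n + 1) → A => b0) := by
    unfold deck
    apply Multiset.map_congr rfl
    rintro ⟨i, j⟩ _
    have : minor (fun a : Fin (n + 1) → A => if Injective a then b1 else b0) i j =
        minor (fun _ : Fin (n + 1) → A => b0) i j := by
      funext a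
      simp only [minor]
      rw [if_neg]
      intro hi
      have : j = j.succAbove i := hi (by simp)
      exact Fin.succAbove_ne j i this.symm
    rw [this]
  obtain ⟨τ, hτ⟩ := hrec _ hdeck
  have h1 := hτ fun k => Infinite.natEmbedding A k
  have hinj : Injective fun k : Fin (n + 1) => Infinite.natEmbedding A (k : ℕ) :=
    fun x y hxy => Fin.ext ((Infinite.natEmbedding A).injective hxy)
  simp only [if_pos hinj] at h1
  exact hb h1.symm

/-- Question 1. If `A` is finite, all functions `A^m → B` determined by content and singletons are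
reconstructible for all arities `m = n + 1` that are large, depending only on the size `k` of `A`
(for every set `B`, finite or not). If `A` is infinite and `B` has at least two elements, then in
every arity some function determined by content and singletons is not reconstructible. -/
theorem result :
    (∀ k : ℕ, ∃ N : ℕ, ∀ (A B : Type) [DecidableEq A] [Fintype A], Fintype.card A = k →
      ∀ n : ℕ, N ≤ n → ∀ f : (Fin (n + 1) → A) → B, DetCS f → Reconstructible f) ∧
    (∀ (A B : Type) [DecidableEq A] [Infinite A] [Nontrivial B] (n : ℕ),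
      ∃ f : (Fin (n + 1) → A) → B, DetCS f ∧ ¬ Reconstructible f) := by
  constructor
  · have hE : S_ESL := Pool.Agent.U94.RC.t_ESL
    have hT : S_TRI := Pool.Agent.U682.RC.t_TRI0
    have hG : S_GLUE := Pool.Agent.U875.RC.t_GLUE Pool.Agent.U94.RC.t_MERGE
    have hAl : S_ALPHA := Pool.Agent.U692.RC.t_ALPHA Pool.Agent.U682.RC.t_GEN hT hE
    have hBe : S_BETA := t_BETA hT hE
    exact main (Pool.Agent.U103.RC.t_ADATA hAl Pool.Agent.U94.RC.t_DIG t_C2E hG)
      (Pool.Agent.U394.RC.t_BDATA hBe t_C2E hG) Pool.Agent.U875.RC.Bad.t_BAD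
  · intro A B _ _ _ n
    exact infinite_case A B n

end Pool.Agent.Results.MP_75c0e8_co.Reconstruction
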